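import Pool.Agent.helper34.MO.SpecD

/-!
# Row mo:GGF: the value of a hub
-/

set_option autoImplicit false

open Complex Finset

namespace Pool.Agent.MO

/-- a lower bound of `gg` -/
theorem GGF_lb (m : ℕ) (r : ℝ) (hr : 0 < r) (h : 100 + 1.053 * (m : ℝ) ≤ r ^ 2) :
    0.83 / 3.1416 * (3 / r + 10 * (500 + 3.159 * m) / (100 + 1.053 * m) ^ 2) ≤ gg m := by
  unfold gg
  have hs : (0 : ℝ) < 100 + 1.053 * m := by positivity
  have h1 : Real.sqrt (100 + 1.053 * m) ≤ r := by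
    rw [Real.sqrt_le_left hr.le]
    exact h
  have h2 : 3 / r ≤ 3 / Real.sqrt (100 + 1.053 * m) :=
    div_le_div_of_nonneg_left (by norm_num) (Real.sqrt_pos.2 hs) h1
  have h3 : (0.83 : ℝ) / 3.1416 ≤ 0.83 / Real.pi :=
    div_le_div_of_nonneg_left (by norm_num) Real.pi_pos Real.pi_lt_d4.le
  have h4 : (0 : ℝ) ≤ 3 / r + 10 * (500 + 3.159 * m) / (100 + 1.053 * m) ^ 2 := by positivity
  refine mul_le_mul h3 (by linarith) h4 (by positivity)

theorem GGF_ub : gg 13 ≤ 0.1852 := by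
  unfold gg
  have h1 : (10.66 : ℝ) ≤ Real.sqrt (100 + 1.053 * ((13 : ℕ) : ℝ)) := by
    apply Real.le_sqrt_of_sq_le
    norm_num
  have h2 : 3 / Real.sqrt (100 + 1.053 * ((13 : ℕ) : ℝ)) ≤ 3 / 10.66 :=
    div_le_div_of_nonneg_left (by norm_num) (by norm_num) h1
  have h3 : (0.83 : ℝ) / Real.pi ≤ 0.83 / 3.14 :=
    div_le_div_of_nonneg_left (by norm_num) (by norm_num) Real.pi_gt_d2.le
  have h4 : (3 / Real.sqrt (100 + 1.053 * ((13 : ℕ) : ℝ)) +
      10 * (500 + 3.159 * ((13 : ℕ) : ℝ)) / (100 + 1.053 * ((13 : ℕ) : ℝ)) ^ 2) ≤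
      3 / 10.66 + 10 * (500 + 3.159 * ((13 : ℕ) : ℝ)) / (100 + 1.053 * ((13 : ℕ) : ℝ)) ^ 2 := by
    linarith
  have h5 : (0 : ℝ) ≤ 3 / Real.sqrt (100 + 1.053 * ((13 : ℕ) : ℝ)) +
      10 * (500 + 3.159 * ((13 : ℕ) : ℝ)) / (100 + 1.053 * ((13 : ℕ) : ℝ)) ^ 2 := by positivity
  refine (mul_le_mul h3 h4 h5 (by norm_num)).trans ?_
  norm_num

theorem GGF_13 : (0.1846 : ℝ) ≤ gg 13 := by
  refine le_trans ?_ (GGF_lb 13 10.67 (by norm_num) (by norm_num))
  norm_num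

/-- large `m` -/
theorem GGF_big (m : ℕ) (hm : 80 ≤ m) : 7.5556 ≤ ((m : ℝ) - 2) * gg m := by
  have hm' : (80 : ℝ) ≤ m := by exact_mod_cast hm
  set x : ℝ := (m : ℝ) with hx
  have hs : (0 : ℝ) < 100 + 1.053 * x := by linarith
  -- `(100 + 1.053 x) 78^2 ≤ (x-2)^2 184.24`
  have h1 : 100 + 1.053 * x ≤ ((x - 2) * 13.58 / 78) ^ 2 := by nlinarith
  have hr : 0 < (x - 2) * 13.58 / 78 := by linarith
  have h2 := GGF_lb m ((x - 2) * 13.58 / 78) hr h1
  rw [← hx] at h2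
  have h3 : (x - 2) * (0.83 / 3.1416 * (3 / ((x - 2) * 13.58 / 78) +
      10 * (500 + 3.159 * x) / (100 + 1.053 * x) ^ 2)) ≤ (x - 2) * gg m :=
    mul_le_mul_of_nonneg_left h2 (by linarith)
  refine le_trans ?_ h3
  have h4 : (x - 2) * (3 / ((x - 2) * 13.58 / 78)) = 3 * 78 / 13.58 := by
    have : x - 2 ≠ 0 := by linarith
    field_simp
  have h5 : 12.6 ≤ (x - 2) * (10 * (500 + 3.159 * x) / (100 + 1.053 * x) ^ 2) := by
    rw [← mul_div_assoc, le_div_iff₀ (by positivity)]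
    nlinarith
  have e : (x - 2) * (0.83 / 3.1416 * (3 / ((x - 2) * 13.58 / 78) +
      10 * (500 + 3.159 * x) / (100 + 1.053 * x) ^ 2)) =
      0.83 / 3.1416 * ((x - 2) * (3 / ((x - 2) * 13.58 / 78)) +
        (x - 2) * (10 * (500 + 3.159 * x) / (100 + 1.053 * x) ^ 2)) := by ring
  rw [e, h4]
  have h6 : (0.83 : ℝ) / 3.1416 * (3 * 78 / 13.58 + 12.6) ≤
      0.83 / 3.1416 * (3 * 78 / 13.58 + (x - 2) * (10 * (500 + 3.159 * x) / (100 + 1.053 * x) ^ 2)) := by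
    refine mul_le_mul_of_nonneg_left (by linarith) (by norm_num)
  refine le_trans ?_ h6
  norm_num

theorem GGF (_hGGM : GGM_stmt) : GGF_stmt := by
  intro m hm
  have hub := GGF_ub
  have h13 := GGF_13
  rcases le_or_gt 80 m with h | h
  · have h1 := GGF_big m h
    refine (min_le_left _ _).trans ?_
    linarith
  · refine (min_le_right _ _).trans ?_
    rcases Nat.eq_or_lt_of_le hm with h0 | h0
    · subst h0
      push_cast
      linarith
    · have hs : (0 : ℝ) < 100 + 1.053 * m := by positivity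
      have h1 := GGF_lb m ((100 + 1.053 * m) / 24 + 6) (by positivity)
        (by nlinarith [sq_nonneg ((100 + 1.053 * (m : ℝ)) / 24 - 6)])
      have h2 : (14 : ℝ) ≤ m := by exact_mod_cast h0
      have h3 := mul_le_mul_of_nonneg_left h1 (by linarith : (0 : ℝ) ≤ (m : ℝ) - 2)
      have h4 : 0.034 * ((m : ℝ) + 1) + 1.5556 ≤ ((m : ℝ) - 2) * (0.83 / 3.1416 *
          (3 / ((100 + 1.053 * m) / 24 + 6) + 10 * (500 + 3.159 * m) / (100 + 1.053 * m) ^ 2)) := by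
        clear h1 h3 hub h13 hs h2
        interval_cases m <;> norm_num
      linarith

end Pool.Agent.MO
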