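import Pool.Agent.helper34.MO.SpecD

/-!
# Row mo:IGG: a lower bound of the integral of `t^4/(t^2+μ)^3`

The function `-(1/8) (3/√(t^2+μ) + t (5 t^2 + 3 μ)/(t^2+μ)^2)` has derivative at most `t^4/(t^2+μ)^3`.
-/

set_option autoImplicit false

open Complex Finset

namespace Pool.Agent.MO

theorem IGG_der (μ t : ℝ) (hμ : 0 ≤ μ) (ht : 0 < t) :
    HasDerivAt (fun t : ℝ => -(1 / 8) * (3 / Real.sqrt (t ^ 2 + μ) +
        t * (5 * t ^ 2 + 3 * μ) / (t ^ 2 + μ) ^ 2))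
      (1 / 8 * (3 * t / ((t ^ 2 + μ) * Real.sqrt (t ^ 2 + μ)) +
        (5 * t ^ 4 - 6 * μ * t ^ 2 - 3 * μ ^ 2) / (t ^ 2 + μ) ^ 3)) t := by
  have hs : 0 < t ^ 2 + μ := by positivity
  have hw : 0 < Real.sqrt (t ^ 2 + μ) := Real.sqrt_pos.2 hs
  have hw2 : Real.sqrt (t ^ 2 + μ) ^ 2 = t ^ 2 + μ := Real.sq_sqrt hs.le
  have h1 : HasDerivAt (fun t : ℝ => t ^ 2 + μ) (2 * t) t := by
    simpa using (hasDerivAt_pow 2 t).add_const μ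
  have h2 : HasDerivAt (fun t : ℝ => Real.sqrt (t ^ 2 + μ)) (2 * t / (2 * Real.sqrt (t ^ 2 + μ))) t :=
    h1.sqrt hs.ne'
  have h3 := (hasDerivAt_const t (3 : ℝ)).div h2 hw.ne'
  have h4 : HasDerivAt (fun t : ℝ => t * (5 * t ^ 2 + 3 * μ)) (15 * t ^ 2 + 3 * μ) t := by
    have h := (hasDerivAt_id t).mul (((hasDerivAt_pow 2 t).const_mul (5 : ℝ)).add_const (3 * μ))
    refine h.congr_deriv ?_
    simp only [id]
    push_cast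
    ring
  have h5 := h4.div (h1.pow 2) (by positivity : (t ^ 2 + μ) ^ 2 ≠ 0)
  have h6 := (h3.add h5).const_mul (-(1 / 8 : ℝ))
  refine h6.congr_deriv ?_
  have e : (t ^ 2 + μ) * Real.sqrt (t ^ 2 + μ) = Real.sqrt (t ^ 2 + μ) ^ 3 := by
    have e0 : Real.sqrt (t ^ 2 + μ) ^ 3 = Real.sqrt (t ^ 2 + μ) ^ 2 * Real.sqrt (t ^ 2 + μ) := by ring
    rw [e0, hw2]
  rw [e]
  have e1 : (0 * Real.sqrt (t ^ 2 + μ) - 3 * (2 * t / (2 * Real.sqrt (t ^ 2 + μ)))) /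
      Real.sqrt (t ^ 2 + μ) ^ 2 = - (3 * t / Real.sqrt (t ^ 2 + μ) ^ 3) := by
    field_simp
    ring
  have e2 : ((15 * t ^ 2 + 3 * μ) * (t ^ 2 + μ) ^ 2 -
      t * (5 * t ^ 2 + 3 * μ) * (((2 : ℕ) : ℝ) * (t ^ 2 + μ) ^ (2 - 1) * (2 * t))) / ((t ^ 2 + μ) ^ 2) ^ 2 =
      - ((5 * t ^ 4 - 6 * μ * t ^ 2 - 3 * μ ^ 2) / (t ^ 2 + μ) ^ 3) := by
    rw [← neg_div, div_eq_div_iff (by positivity) (by positivity)]
    push_cast
    ring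
  have e3 : (-(1 / 8 : ℝ)) * ((0 * Real.sqrt (t ^ 2 + μ) - 3 * (2 * t / (2 * Real.sqrt (t ^ 2 + μ)))) /
      Real.sqrt (t ^ 2 + μ) ^ 2 + ((15 * t ^ 2 + 3 * μ) * (t ^ 2 + μ) ^ 2 -
      t * (5 * t ^ 2 + 3 * μ) * (((2 : ℕ) : ℝ) * (t ^ 2 + μ) ^ (2 - 1) * (2 * t))) / ((t ^ 2 + μ) ^ 2) ^ 2) =
      1 / 8 * (3 * t / Real.sqrt (t ^ 2 + μ) ^ 3 +
        (5 * t ^ 4 - 6 * μ * t ^ 2 - 3 * μ ^ 2) / (t ^ 2 + μ) ^ 3) := by
    rw [e1, e2]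
    ring
  exact e3

theorem IGG_le (μ t : ℝ) (hμ : 0 ≤ μ) (ht : 0 < t) :
    1 / 8 * (3 * t / ((t ^ 2 + μ) * Real.sqrt (t ^ 2 + μ)) +
        (5 * t ^ 4 - 6 * μ * t ^ 2 - 3 * μ ^ 2) / (t ^ 2 + μ) ^ 3) ≤ t ^ 4 / (t ^ 2 + μ) ^ 3 := by
  have hs : 0 < t ^ 2 + μ := by positivity
  have hw : 0 < Real.sqrt (t ^ 2 + μ) := Real.sqrt_pos.2 hs
  have h1 : t ≤ Real.sqrt (t ^ 2 + μ) := Real.le_sqrt_of_sq_le (by linarith)
  have h2 : 3 * t / ((t ^ 2 + μ) * Real.sqrt (t ^ 2 + μ)) ≤ 3 / (t ^ 2 + μ) := by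
    rw [div_le_div_iff₀ (by positivity) hs]
    nlinarith [mul_le_mul_of_nonneg_left h1 hs.le]
  have h3 : t ^ 4 / (t ^ 2 + μ) ^ 3 = 1 / 8 * (3 / (t ^ 2 + μ) +
        (5 * t ^ 4 - 6 * μ * t ^ 2 - 3 * μ ^ 2) / (t ^ 2 + μ) ^ 3) := by
    have e : 3 / (t ^ 2 + μ) = 3 * (t ^ 2 + μ) ^ 2 / (t ^ 2 + μ) ^ 3 := by
      rw [div_eq_div_iff hs.ne' (by positivity)]
      ring
    rw [e, ← add_div]
    have e2 : 3 * (t ^ 2 + μ) ^ 2 + (5 * t ^ 4 - 6 * μ * t ^ 2 - 3 * μ ^ 2) = 8 * t ^ 4 := by ring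
    rw [e2]
    ring
  rw [h3]
  linarith

theorem IGG_end (μ R : ℝ) (hμ : 0 ≤ μ) (hR : 0 < R) :
    -(1 / R) ≤ -(1 / 8) * (3 / Real.sqrt (R ^ 2 + μ) + R * (5 * R ^ 2 + 3 * μ) / (R ^ 2 + μ) ^ 2) := by
  have hs : 0 < R ^ 2 + μ := by positivity
  have h1 : R ≤ Real.sqrt (R ^ 2 + μ) := Real.le_sqrt_of_sq_le (by linarith)
  have h2 : 3 / Real.sqrt (R ^ 2 + μ) ≤ 3 / R := div_le_div_of_nonneg_left (by norm_num) hR h1
  have h3 : R * (5 * R ^ 2 + 3 * μ) / (R ^ 2 + μ) ^ 2 ≤ 5 / R := by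
    rw [div_le_div_iff₀ (by positivity) hR]
    nlinarith [mul_nonneg hμ (sq_nonneg R), sq_nonneg μ]
  have h4 : 3 / R + 5 / R = 8 * (1 / R) := by ring
  linarith

theorem IGG : IGG_stmt := by
  intro m ε hε
  refine ⟨max 10 (1 / ε), le_max_left _ _, fun R hR => ?_⟩
  have hR10 : (10 : ℝ) ≤ R := (le_max_left _ _).trans hR
  have hRε : 1 / ε ≤ R := (le_max_right _ _).trans hR
  set μ : ℝ := 1.053 * m with hμd
  have hμ : 0 ≤ μ := by positivity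
  have hpos : ∀ t ∈ Set.uIcc (10 : ℝ) R, 0 < t := by
    intro t ht
    rw [Set.uIcc_of_le hR10] at ht
    linarith [ht.1]
  have hc1 : ContinuousOn (fun t : ℝ => 1 / 8 * (3 * t / ((t ^ 2 + μ) * Real.sqrt (t ^ 2 + μ)) +
        (5 * t ^ 4 - 6 * μ * t ^ 2 - 3 * μ ^ 2) / (t ^ 2 + μ) ^ 3)) (Set.uIcc 10 R) := by
    refine ContinuousOn.mul continuousOn_const (ContinuousOn.add ?_ ?_)
    · refine ContinuousOn.div (by fun_prop) (by fun_prop) fun t ht => ?_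
      have := hpos t ht
      have hs : 0 < t ^ 2 + μ := by positivity
      exact (mul_pos hs (Real.sqrt_pos.2 hs)).ne'
    · refine ContinuousOn.div (by fun_prop) (by fun_prop) fun t ht => ?_
      have := hpos t ht
      have hs : 0 < t ^ 2 + μ := by positivity
      exact (pow_pos hs 3).ne'
  have hc2 : ContinuousOn (fun t : ℝ => t ^ 4 / (t ^ 2 + μ) ^ 3) (Set.uIcc 10 R) := by
    refine ContinuousOn.div (by fun_prop) (by fun_prop) fun t ht => ?_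
    have := hpos t ht
    have hs : 0 < t ^ 2 + μ := by positivity
    exact (pow_pos hs 3).ne'
  have i1 : IntervalIntegrable (fun t : ℝ => 1 / 8 * (3 * t / ((t ^ 2 + μ) * Real.sqrt (t ^ 2 + μ)) +
        (5 * t ^ 4 - 6 * μ * t ^ 2 - 3 * μ ^ 2) / (t ^ 2 + μ) ^ 3)) MeasureTheory.volume 10 R :=
    hc1.intervalIntegrable
  have i2 : IntervalIntegrable (fun t : ℝ => t ^ 4 / (t ^ 2 + μ) ^ 3) MeasureTheory.volume 10 R :=
    hc2.intervalIntegrable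
  have h1 := intervalIntegral.integral_eq_sub_of_hasDerivAt
    (fun t ht => IGG_der μ t hμ (hpos t ht)) i1
  have h2 := intervalIntegral.integral_mono_on hR10 i1 i2
    (fun t ht => IGG_le μ t hμ (by linarith [ht.1]))
  rw [h1] at h2
  have h3 := IGG_end μ R hμ (by linarith)
  have h4 : 1 / R ≤ ε := by
    rw [div_le_iff₀ (by linarith)]
    rw [div_le_iff₀ hε] at hRε
    linarith
  have e1 : (10 : ℝ) ^ 2 + μ = 100 + μ := by norm_num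
  have e2 : (10 : ℝ) * (5 * 10 ^ 2 + 3 * μ) = 10 * (500 + 3.159 * m) := by
    rw [hμd]
    ring
  rw [e1, e2] at h2
  linarith

end Pool.Agent.MO
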