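import Pool.Agent.helper34.MO.SpecC

/-!
# Row mo:LKU: uniform weights, `phiW` is the phase function of the spectrum
-/

set_option autoImplicit false

open Complex Finset

namespace Pool.Agent.MO

theorem LKU_wt (x : ℝ) (t : Tr) : ∀ i : ℕ, wt (fun _ => x) t i = uni x t := by
  induction t with
  | e => intro i; rfl
  | nd l r ihl ihr =>
    intro i
    simp only [wt, uni, ihl, ihr]

theorem LKU (hPHH : PHH_stmt) (hLNK : LNK_stmt) (hATS : ATS_stmt) : LKU_stmt := by
  intro t x hx
  rw [← hPHH (AG t) (t.sz + 2) x hx fun a b => (hATS.2 t a b).1,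
    hLNK t (fun _ => x) fun _ => hx, LKU_wt]

end Pool.Agent.MO
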